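import Pool.Agent.Lib.MP_aeedc9_co.Few

/-!
# MP_aeedc9_co: the second order term when few vertices have large balls of radius two
-/

set_option autoImplicit false

namespace Pool.Agent.Results.MP_aeedc9_co.FewHubs

open Pool.Agent.MP_aeedc9_co
open scoped Classical

/-- Let `G` be a connected `d`-regular graph on `d ^ 2 + 1` vertices in which all distances are at
most three. If at most `h` vertices have more than `t` vertices within distance two, then the sum
of the distances over all ordered pairs is at most
`3 d ^ 4 - 4 d ^ 3 + (d ^ 2 + 3) h + 3 (d + 1) t + 9 d ^ 2`. -/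
theorem result (d : ℕ) (hd : 1 ≤ d) (V : Type*) [Fintype V] (G : SimpleGraph V)
    (hc : G.Connected) (hreg : ∀ v, (G.neighborSet v).ncard = d)
    (hn : Fintype.card V = d ^ 2 + 1) (h3 : ∀ u v, G.dist u v ≤ 3) (t h : ℕ)
    (hth : {v : V | t < {u : V | G.dist v u ≤ 2}.ncard}.ncard ≤ h) :
    ∑ u, ∑ v, G.dist u v + 4 * d ^ 3 ≤
      3 * d ^ 4 + (d ^ 2 + 3) * h + 3 * (d + 1) * t + 9 * d ^ 2 := by
  have hreg' : ∀ v, (nb G v).card = d := by
    intro v
    rw [← hreg v, ← Set.ncard_coe_finset]
    congr 1
    ext u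
    simp
  have hball : ∀ v, (ball G v).card = {u : V | G.dist v u ≤ 2}.ncard := by
    intro v
    rw [← Set.ncard_coe_finset]
    congr 1
    ext u
    simp
  have hh : (Finset.univ.filter fun c => t < (ball G c).card).card ≤ h := by
    refine le_trans (le_of_eq ?_) hth
    rw [← Set.ncard_coe_finset]
    congr 1
    ext u
    simp only [Finset.coe_filter, Finset.mem_univ, true_and, Set.mem_ofPred_eq, hball]
  have h1 := few_ineq hc hreg' hd h3 hn t h hh
  have h4 := status_eq hc hreg' h3 hn
  have e1 : h * (d ^ 2 + 3) = (d ^ 2 + 3) * h := by ring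
  have e2 : 3 * t * (d + 1) = 3 * (d + 1) * t := by ring
  omega

end Pool.Agent.Results.MP_aeedc9_co.FewHubs
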