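import Pool.Agent.Lib.MP_aeedc9_co.Iso

/-!
# MP_aeedc9_co: the conjecture when no vertex has two neighbours in a foreign row
-/

set_option autoImplicit false

namespace Pool.Agent.Results.MP_aeedc9_co.RowClass

open Pool.Agent.MP_aeedc9_co
open scoped Classical

/-- The row of `i` (a neighbour of the centre `x`): the neighbours of `i` other than `x`. -/
def Row {V : Type*} (G : SimpleGraph V) (x i : V) : Set V := {v | v ≠ x ∧ G.Adj i v}

/-- The number of pairs at distance at most two of a vertex of the row of `i` and a vertex of the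
row of `j`. -/
noncomputable def near {V : Type*} (G : SimpleGraph V) (x i j : V) : ℕ :=
  {z : V × V | z.1 ∈ Row G x i ∧ z.2 ∈ Row G x j ∧ G.dist z.1 z.2 ≤ 2}.ncard

/-- The number of ordered pairs of different non-adjacent vertices of the row of `i`. -/
noncomputable def gaps {V : Type*} (G : SimpleGraph V) (x i : V) : ℕ :=
  {z : V × V | z.1 ∈ Row G x i ∧ z.2 ∈ Row G x i ∧ z.1 ≠ z.2 ∧ ¬ G.Adj z.1 z.2}.ncard

/-- The number of ordered pairs of different non-adjacent vertices of the same row. -/
noncomputable def allGaps {V : Type*} (G : SimpleGraph V) (x : V) : ℕ :=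
  {z : V × V | z.1 ≠ z.2 ∧ ¬ G.Adj z.1 z.2 ∧
    ∃ i, G.Adj x i ∧ z.1 ∈ Row G x i ∧ z.2 ∈ Row G x i}.ncard

lemma near_eq {V : Type*} [Fintype V] (G : SimpleGraph V) (x i j : V) :
    near G x i j = nr G x i j := by
  unfold near nr
  rw [← Finset.sum_product', ← Finset.card_filter, ← Set.ncard_coe_finset]
  congr 1
  ext z
  simp only [Row, Set.mem_ofPred_eq, Finset.coe_filter, Finset.mem_product, mem_row]
  tauto

lemma gaps_eq {V : Type*} [Fintype V] (G : SimpleGraph V) (x i : V) :
    gaps G x i = rho G x i := by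
  unfold gaps rho nn
  rw [← Finset.sum_product' (f := fun v w => if w ≠ v ∧ ¬ G.Adj v w then 1 else 0),
    ← Finset.card_filter, ← Set.ncard_coe_finset]
  congr 1
  ext z
  simp only [Row, Set.mem_ofPred_eq, Finset.coe_filter, Finset.mem_product, mem_row]
  tauto

lemma allGaps_eq {V : Type*} [Fintype V] {G : SimpleGraph V} {x : V} {m : ℕ} (h : Cfg G x m) :
    allGaps G x = Rho G x := by
  have h1 : Rho G x = ∑ i ∈ nb G x, ((row G x i ×ˢ row G x i).filter
      fun z => z.2 ≠ z.1 ∧ ¬ G.Adj z.1 z.2).card := by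
    unfold Rho rho nn
    refine Finset.sum_congr rfl fun i _ => ?_
    rw [← Finset.sum_product' (f := fun v w => if w ≠ v ∧ ¬ G.Adj v w then 1 else 0),
      ← Finset.card_filter]
  rw [h1, ← Finset.card_biUnion]
  · unfold allGaps
    rw [← Set.ncard_coe_finset]
    congr 1
    ext z
    simp only [Row, Set.mem_ofPred_eq, Finset.coe_biUnion, Finset.coe_filter,
      Finset.mem_product, mem_row, Set.mem_iUnion, mem_nb, Finset.mem_coe, exists_prop]
    constructor
    · rintro ⟨h2, h3, i, h4, h5, h6⟩
      exact ⟨i, h4, ⟨h5, h6⟩, Ne.symm h2, h3⟩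
    · rintro ⟨i, h4, ⟨h5, h6⟩, h2, h3⟩
      exact ⟨Ne.symm h2, h3, i, h4, h5, h6⟩
  · intro i hi j hj hij
    rw [Function.onFun, Finset.disjoint_left]
    intro z hz hz2
    have h2 := (Finset.mem_product.1 (Finset.mem_filter.1 hz).1).1
    have h3 := (Finset.mem_product.1 (Finset.mem_filter.1 hz2).1).1
    exact hij ((uniq h (mem_nb.1 hj) h3).2 i (mem_nb.1 hi) h2)

/-- Let `G` be a connected `d`-regular graph on `d ^ 2 + 1` vertices in which all distances are at
most three, and let `x` be a vertex all of whose distances are at most two. Assume that a vertex not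
adjacent to the neighbour `j` of `x` has at most one common neighbour with `j`, and that for any two
neighbours `i`, `j` of `x` the rows of `i` and `j` are joined by an edge, or the number of pairs at
distance at most two in the product of the two rows plus half the number of ordered non-adjacent
pairs inside the two rows is at least `d - 1`. Then the sum of all distances plus the number of
ordered non-adjacent pairs inside the rows is at most `3 d ^ 4 - 4 d ^ 3 + 4 d ^ 2 - d`, the sum of
the distances of `G_d`, and if the sum of all distances is equal to this number, `G` is isomorphic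
to `G_d`. -/
theorem result (d : ℕ) (hd : 1 ≤ d) (V : Type*) [Fintype V] (G : SimpleGraph V)
    (hc : G.Connected) (hreg : ∀ v, (G.neighborSet v).ncard = d)
    (hn : Fintype.card V = d ^ 2 + 1) (h3 : ∀ u v, G.dist u v ≤ 3) (x : V)
    (hx : ∀ v, G.dist x v ≤ 2)
    (h1 : ∀ j u v w, G.Adj x j → u ≠ j → ¬ G.Adj u j → G.Adj u v → G.Adj v j → G.Adj u w →
      G.Adj w j → v = w)
    (h2 : ∀ i j, G.Adj x i → G.Adj x j → i ≠ j →
      (∃ u ∈ Row G x i, ∃ v ∈ Row G x j, G.Adj u v) ∨
        2 * (d - 1) ≤ 2 * near G x i j + gaps G x i + gaps G x j) :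
    ∑ u, ∑ v, G.dist u v + allGaps G x + 4 * d ^ 3 + d ≤ 3 * d ^ 4 + 4 * d ^ 2 ∧
    (∑ u, ∑ v, G.dist u v + 4 * d ^ 3 + d = 3 * d ^ 4 + 4 * d ^ 2 → Nonempty (Gd d ≃g G)) := by
  obtain ⟨m, rfl⟩ : ∃ m, d = m + 1 := ⟨d - 1, by omega⟩
  have hreg' : ∀ v, (nb G v).card = m + 1 := by
    intro v
    rw [← hreg v, ← Set.ncard_coe_finset]
    congr 1
    ext u
    simp
  have hcfg : Cfg G x m := ⟨hc, hreg', hx, hn⟩
  have hcls : Cls G x m := by
    refine ⟨hcfg, ?_, ?_⟩
    · intro i j hi hj hij p hp
      unfold dg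
      rw [← Finset.card_filter, Finset.card_le_one]
      intro v hv w hw
      rw [Finset.mem_filter, mem_row] at hv hw
      refine h1 j p v w hj ?_ ?_ hv.2 hv.1.2.symm hw.2 hw.1.2.symm
      · rintro rfl
        exact (uniq hcfg hi hp).1 hj
      · intro h4
        exact hij ((uniq hcfg hi hp).2 j hj (mem_row.2 ⟨(mem_row.1 hp).1, h4.symm⟩)).symm
    · intro i j hi hj hij h0
      rcases h2 i j hi hj hij with ⟨u, hu, v, hv, huv⟩ | h4
      · exfalso
        have h5 := ell_pos (i := i) (j := j) (mem_row.2 hu) (dg_pos (mem_row.2 hv) huv)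
        omega
      · rw [near_eq, gaps_eq, gaps_eq] at h4
        simpa using h4
  have h4 := pairs_ge hcls
  have h5 := status_eq hc hreg' h3 hn
  have h6 := pairs_eq hc hreg' hn
  have h7 := allGaps_eq hcfg
  rw [h7]
  have e1 : (m + 1 + 1) * ((m + 1) ^ 2 + 1) = (m + 1) ^ 3 + (m + 1) ^ 2 + (m + 1) + 1 := by ring
  rw [e1] at h6
  refine ⟨by omega, fun h8 => iso_of hcls (by omega)⟩

end Pool.Agent.Results.MP_aeedc9_co.RowClass
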