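import Pool.Agent.Lib.RM22.Final

/-!
# Total status of regular graphs of diameter three on `d² + 1` vertices
-/

set_option autoImplicit false

namespace Pool.Agent.Results.MP_aeedc9_co.StatusBound

open Pool.Agent.RM22 Finset

/-- The status of a `d`-regular graph on `d² + 1` vertices of diameter at most three: a general
inequality, the asymptotic bound in the absence of vertices of small status, and a bound for all
graphs. -/
theorem result {V : Type} [Fintype V] (G : SimpleGraph V) [G.LocallyFinite] (d : ℕ) (hd : 1 ≤ d)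
    (hcard : Fintype.card V = d ^ 2 + 1) (hreg : G.IsRegularOfDegree d) (hconn : G.Connected)
    (hdist : ∀ u v, G.dist u v ≤ 3) :
    (d : ℝ) ^ 2 * ((d : ℝ) ^ 2 + 1) * (2 * d - 3) ≤
        ((d : ℝ) ^ 2 + 6 * d) * ∑ v, gap G d v + ∑ v, gap G d v ^ 2 ∧
      (∀ (ε : ℝ) (W : Finset V), 0 ≤ ε → (W.card : ℝ) ≤ ε * d →
        (∀ v, v ∉ W → gap G d v ≤ ε * (d : ℝ) ^ 2) →
        (totalStatus G : ℝ) ≤
          3 * (d : ℝ) ^ 4 - (4 - 3 * ε) * (d : ℝ) ^ 3 + 19 * (d : ℝ) ^ 2) ∧
      (totalStatus G : ℝ) ≤ ((d : ℝ) ^ 2 + 1) * (3 * (d : ℝ) ^ 2 - 7 / 2 * d + 7) := by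
  have h1 := card_D_one G hreg
  exact ⟨main_real G hcard hconn hdist h1,
    fun ε W h0 hW hW' => hubfree_bound G hd hcard hconn hdist h1 h0 W hW hW',
    general_bound G hd hcard hconn hdist h1⟩

end Pool.Agent.Results.MP_aeedc9_co.StatusBound
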