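import Pool.Agent.Lib.MP_aeedc9_co.Final

/-!
# MP_aeedc9_co: upper bounds for the sum of all distances
-/

set_option autoImplicit false

namespace Pool.Agent.Results.MP_aeedc9_co.UpperBound

open Pool.Agent.MP_aeedc9_co
open scoped Classical

/-- Every connected `d`-regular graph on `d ^ 2 + 1` vertices in which all distances are at most
three (in particular every radial Moore graph of degree `d` and diameter three) has status, the sum
of the distances over all ordered pairs, at most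
`3 d ^ 4 - (7 / 2) d ^ 3 + (17 / 2) d ^ 2 - 2 d` and at most
`3 d ^ 4 - (11 / 3) d ^ 3 + 20 d ^ 2 √d + 3 d ^ 2 - 2 d`. -/
theorem result (d : ℕ) (hd : 1 ≤ d) (V : Type*) [Fintype V] (G : SimpleGraph V)
    (hc : G.Connected) (hreg : ∀ v, (G.neighborSet v).ncard = d)
    (hn : Fintype.card V = d ^ 2 + 1) (h3 : ∀ u v, G.dist u v ≤ 3) :
    ((∑ u, ∑ v, G.dist u v : ℕ) : ℝ) ≤
      min (3 * (d : ℝ) ^ 4 - 7 / 2 * (d : ℝ) ^ 3 + 17 / 2 * (d : ℝ) ^ 2 - 2 * d)
        (3 * (d : ℝ) ^ 4 - 11 / 3 * (d : ℝ) ^ 3 + 20 * ((d : ℝ) ^ 2 * Real.sqrt d) +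
          3 * (d : ℝ) ^ 2 - 2 * d) := by
  have hreg' : ∀ v, (nb G v).card = d := by
    intro v
    rw [← hreg v, ← Set.ncard_coe_finset]
    congr 1
    ext u
    simp
  have h1 := main_ineq hc hreg' hd h3 hn
  have h2 := main_ineq2 hc hreg' hd h3 hn
  have h4 := status_eq hc hreg' h3 hn
  have h1' : 3 * (d : ℝ) ^ 3 ≤ 2 * pairs2 G + 11 * (d : ℝ) ^ 2 := by exact_mod_cast h1
  have h4' : ((∑ u, ∑ v, G.dist u v : ℕ) : ℝ) + pairs2 G + 2 * (d : ℝ) ^ 3 + 2 * d =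
      3 * (d : ℝ) ^ 4 + 3 * (d : ℝ) ^ 2 := by exact_mod_cast h4
  refine le_min ?_ ?_ <;> linarith

end Pool.Agent.Results.MP_aeedc9_co.UpperBound
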